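import Pool.Agent.Helper79.JET.Alg
import Pool.Agent.Helper38.NS.Blk

/-! The bridge from boxes to the flat system. `z` is flat and untilted: for any two points of one box of scale `s`
the displacement of `z` is the value of the jets of the first point at the displacement of the base point. Then
(F3) the jets are Taylor coefficients, (F4) the derivatives of a curve over a base line are the values of the jets on
the direction of the line. -/

set_option autoImplicit false
set_option linter.unusedSectionVars false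

namespace Pool.Agent.Helper79.JET

open Finset Filter Topology Pool.Agent.Helper69.RK Pool.Agent.Helper31.EC Pool.Agent.Helper31.EC.Sp
open Pool.Agent.Helper31.EC.QS Pool.Agent.Helper57.TA Pool.Agent.Helper21.DO Pool.Agent.Helper38.NS

noncomputable section

variable {S : Sp} {β : Type} [Fintype β]

/-- the relation of one box for two points -/
def Rel {W : Sp} (P0 P1 : Pj W S) (q : β → QS S) (z : QS S) (J : MvPolynomial β (QS S)) (r : ℝ) : Prop :=
  P1.qs z - P0.qs z - MvPolynomial.eval (fun a => P1.qs (q a) - P0.qs (q a)) (MvPolynomial.map P0.qs J) ∈ Id W r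

/-- (W): the relation for all pairs of points with the same box label `g` -/
def Bx {ι : Type} (g : ι → QS S) (q : β → QS S) (z : QS S) (J : MvPolynomial β (QS S)) (r : ℝ) : Prop :=
  ∀ (W : Sp) (P0 P1 : Pj W S), (∀ i, P0.qs (g i) = P1.qs (g i)) → Rel P0 P1 q z J r

/-- the box label determines the digits of level `s` of the base point, the base point is full in the box -/
structure Bs {ι : Type} [Fintype ι] (g : ι → QS S) (q : β → QS S) (s : ℝ) : Prop where
  near : ∀ a, ∃ i, q a - g i ∈ Id S s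
  full : h (vd q 1) (vd g 1) = Fintype.card β * (1 - s)

theorem exists_know {σ : Type} (P : MvPolynomial σ (QS S)) : ∃ B : S.L, P ∈ PK B := by
  classical
  refine ⟨P.support.sup fun m => dg (P.coeff m) 1, fun m => ?_⟩
  by_cases hm : m ∈ P.support
  · exact Finset.le_sup (f := fun m => dg (P.coeff m) 1) hm
  · rw [MvPolynomial.notMem_support_iff.mp hm]
    exact (Kn S 1 le_rfl _).zero_mem

theorem exists_know1 (P : Polynomial (QS S)) : ∃ B : S.L, P ∈ PK1 B := by
  classical
  refine ⟨P.support.sup fun m => dg (P.coeff m) 1, fun m => ?_⟩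
  by_cases hm : m ∈ P.support
  · exact Finset.le_sup (f := fun m => dg (P.coeff m) 1) hm
  · rw [Polynomial.notMem_support_iff.mp hm]
    exact (Kn S 1 le_rfl _).zero_mem

theorem qs_Id {T : Sp} (p : Pj T S) {f : QS S} {r : ℝ} (h : f ∈ Id S r) : p.qs f ∈ Id T r := by
  rcases le_total r 1 with h2 | h2
  · exact (p.qs_mem_Id h2).mpr h
  · have h3 : f = 0 := mem_Id_one.mp (Id_anti h2 h)
    rw [h3, map_zero]
    exact (Id T _).zero_mem

theorem Bs.sub_mem {ι : Type} [Fintype ι] {g : ι → QS S} {q : β → QS S} {s : ℝ} (hb : Bs g q s) {W : Sp}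
    {P0 P1 : Pj W S} (hc : ∀ i, P0.qs (g i) = P1.qs (g i)) (a : β) : P1.qs (q a) - P0.qs (q a) ∈ Id W s := by
  obtain ⟨i, hi⟩ := hb.near a
  have h0 := qs_Id P0 hi
  have h1 := qs_Id P1 hi
  rw [map_sub] at h0 h1
  rw [hc] at h0
  have h2 := (Id W s).sub_mem h1 h0
  rwa [sub_sub_sub_cancel_right] at h2

/-- a further point with the same label -/
theorem exists_third {W : Sp} (P : Pj W S) {ι : Type} [Fintype ι] (g : ι → QS S) :
    ∃ (D : Sp) (r : Pj D W) (P2 : Pj D S), (∀ i, r.qs (P.qs (g i)) = P2.qs (g i)) ∧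
      ∀ x y, I (r.map x) (P2.map y) (P2.map (vd g 1)) = 0 := by
  obtain ⟨D, p1, p2, hc, hi, hm⟩ := exists_copyS (fun i => P.qs (g i))
  refine ⟨D, p1, p2.comp P, ?_, ?_⟩
  · intro i
    rw [Pj.comp_qs]
    exact hc i
  · intro x y
    have h1 := hi x (P.map y)
    rw [hm, P.qs_vd] at h1
    rw [Pj.comp_map, Pj.comp_map]
    exact h1

/-- a further point of the box, at a displacement whose digits are free -/
theorem Bs.third {ι : Type} [Fintype ι] {g : ι → QS S} {q : β → QS S} {s : ℝ} (hb : Bs g q s) (hs : 0 ≤ s)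
    (hs1 : s < 1) {W : Sp} (P : Pj W S) :
    ∃ (D : Sp) (r : Pj D W) (P2 : Pj D S) (ξ : β → QS D), (∀ i, r.qs (P.qs (g i)) = P2.qs (g i)) ∧
      (∀ a, P2.qs (q a) = r.qs (P.qs (q a)) + sc D s * ξ a) ∧ ∀ B : W.L, Rt (1 - s) ξ (r.map B) := by
  obtain ⟨D, r, P2, hc, hi⟩ := exists_third P g
  have h1 : ∀ a, P2.qs (q a) - r.qs (P.qs (q a)) ∈ Id D s := by
    intro a
    have h2 := hb.sub_mem (P0 := r.comp P) (P1 := P2) (by
      intro i
      rw [Pj.comp_qs]
      exact hc i) a
    rwa [Pj.comp_qs] at h2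
  choose ξ hξ _ using fun a => exists_div' hs hs1.le (h1 a)
  refine ⟨D, r, P2, ξ, hc, ?_, ?_⟩
  · intro a
    rw [← hξ a]
    ring
  · intro B
    set A : W.L := B ⊔ (P.map (vd q 1) ⊔ P.map (vd g 1)) with hA
    have hBA : B ≤ A := le_sup_left
    refine Rt.anti (sub_nonneg.mpr hs1.le) (B := r.map A) ?_ (Pj.map_mono _ hBA)
    apply Rt.of_ge (sub_nonneg.mpr hs1.le)
    have e1 : vd (fun a => P2.qs (q a)) 1 = P2.map (vd q 1) := P2.qs_vd q 1
    have e2 : P2.map (vd g 1) = r.map (P.map (vd g 1)) := by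
      rw [← P2.qs_vd, ← P.qs_vd, ← r.qs_vd]
      exact (vd_congr hc 1).symm
    have e3 : P2.map (vd g 1) ≤ r.map A := by
      rw [e2]
      exact Pj.map_mono _ (le_sup_right.trans le_sup_right)
    have h3 : h (P2.map (vd q 1)) (r.map A) = Fintype.card β * (1 - s) := by
      have h4 := I_zero_iff_h'.mp (hi A (vd q 1))
      rw [sup_eq_left.mpr e3] at h4
      rw [h4, Pj.h_map]
      exact hb.full
    rw [← h3]
    have h5 : P2.map (vd q 1) ≤ vd ξ (1 - s) ⊔ r.map A := by
      rw [← e1, vd_le]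
      intro a
      have e4 : P2.qs (q a) = r.qs (P.qs (q a)) + sc D s * ξ a := by
        rw [← hξ a]
        ring
      rw [e4]
      refine (dg_add_le _ _ le_rfl).trans (sup_le ?_ ?_)
      · rw [r.qs_dg, P.qs_dg]
        refine le_trans ?_ le_sup_right
        exact Pj.map_mono _ ((Pj.map_mono _ (dg_le_vd q 1 a)).trans (le_sup_left.trans le_sup_right))
      · exact (dg_sc_mul hs hs1.le le_rfl _).trans ((dg_le_vd ξ _ a).trans le_sup_left)
    refine (h_mono h5).trans ?_
    rw [h_sup_right_of_le le_rfl]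

/-- number of variables of a monomial -/
def dgr (m : β →₀ ℕ) : ℝ := wgt (fun _ => 1) m

theorem dgr_single (a : β) : dgr (Finsupp.single a 1) = 1 := wgt_single _ a

theorem dgr_nonneg (m : β →₀ ℕ) : 0 ≤ dgr m := wgt_nonneg (fun _ => zero_le_one) m

/-- (F3), three points: the jets at the second point are the recentred jets of the first point -/
theorem three {W : Sp} (P0 P1 P2 : Pj W S) {q : β → QS S} {z : QS S} {J : MvPolynomial β (QS S)} {s r ℓ : ℝ}
    (hs : 0 ≤ s) (hr : r ≤ 1) (h01 : Rel P0 P1 q z J r) (h02 : Rel P0 P2 q z J r) (h12 : Rel P1 P2 q z J r)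
    {B : S.L} (hJ : J ∈ PK B) (hq : vd q 1 ≤ B) {A : W.L} (h0 : P0.map B ≤ A) (h1 : P1.map B ≤ A) (hℓ : 0 < ℓ)
    (hℓ1 : ℓ ≤ 1) {ξ : β → QS W} (hξ : Rt ℓ ξ A) (hd : ∀ a, P2.qs (q a) = P1.qs (q a) + sc W s * ξ a)
    (m : β →₀ ℕ) (hm : m ≠ 0) :
    (shf (fun a => P1.qs (q a) - P0.qs (q a)) (MvPolynomial.map P0.qs J)).coeff m - P1.qs (J.coeff m) ∈
      Id W (r - dgr m * s) := by
  rw [← MvPolynomial.coeff_map]
  refine recentre (A := A) (fun _ => zero_le_one) hs hℓ hℓ1 hξ (PK_mono h0 (map_PK P0 hJ)) (PK_mono h1 (map_PK P1 hJ))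
    (fun a => ?_) hr ?_ m hm
  · refine (dg_sub_le _ _ le_rfl).trans (sup_le ?_ ?_)
    · rw [P1.qs_dg]
      exact (Pj.map_mono _ ((dg_le_vd q 1 a).trans hq)).trans h1
    · rw [P0.qs_dg]
      exact (Pj.map_mono _ ((dg_le_vd q 1 a).trans hq)).trans h0
  · simp only [one_mul]
    have e1 : (fun a => P1.qs (q a) - P0.qs (q a) + sc W s * ξ a) = fun a => P2.qs (q a) - P0.qs (q a) := by
      funext a
      rw [hd]
      ring
    have e2 : (fun a => sc W s * ξ a) = fun a => P2.qs (q a) - P1.qs (q a) := by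
      funext a
      rw [hd]
      ring
    rw [e1, e2]
    have h3 := (Id W r).sub_mem ((Id W r).add_mem h01 h12) h02
    refine (congrArg (· ∈ Id W r) ?_).mp h3
    ring

section box

variable {ι : Type} [Fintype ι] {g : ι → QS S} {q : β → QS S} {z : QS S} {J : MvPolynomial β (QS S)} {s r : ℝ}

/-- (F3): for two points of one box the jets at the second point are the recentred jets of the first point -/
theorem Bx.jets (hB : Bx g q z J r) (hb : Bs g q s) (hs : 0 ≤ s) (hs1 : s < 1) (hr : r ≤ 1) {W : Sp} (P0 P1 : Pj W S)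
    (hc : ∀ i, P0.qs (g i) = P1.qs (g i)) (m : β →₀ ℕ) (hm : m ≠ 0) :
    (shf (fun a => P1.qs (q a) - P0.qs (q a)) (MvPolynomial.map P0.qs J)).coeff m - P1.qs (J.coeff m) ∈
      Id W (r - dgr m * s) := by
  obtain ⟨B₀, hB₀⟩ := exists_know J
  set B : S.L := B₀ ⊔ vd q 1 with hBdef
  obtain ⟨D, p, P2, ξ, h1, h2, h3⟩ := hb.third hs hs1 P1
  have hc0 : ∀ i, (p.comp P0).qs (g i) = P2.qs (g i) := by
    intro i
    rw [Pj.comp_qs, hc i]
    exact h1 i
  have hc1 : ∀ i, (p.comp P1).qs (g i) = P2.qs (g i) := by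
    intro i
    rw [Pj.comp_qs]
    exact h1 i
  have hc2 : ∀ i, (p.comp P0).qs (g i) = (p.comp P1).qs (g i) := fun i => (hc0 i).trans (hc1 i).symm
  have h4 := three (p.comp P0) (p.comp P1) P2 hs hr (hB D _ _ hc2) (hB D _ _ hc0) (hB D _ _ hc1)
    (B := B) (PK_mono le_sup_left hB₀) le_sup_right (A := p.map (P0.map B ⊔ P1.map B))
    (by rw [Pj.comp_map]; exact Pj.map_mono _ le_sup_left) (by rw [Pj.comp_map]; exact Pj.map_mono _ le_sup_right)
    (sub_pos.mpr hs1) (by linarith) (h3 _) (fun a => by rw [Pj.comp_qs]; exact h2 a) m hm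
  have hle : r - dgr m * s ≤ 1 := by
    have := mul_nonneg (dgr_nonneg m) hs
    linarith
  rw [← p.qs_mem_Id hle, map_sub]
  have e1 : p.qs ((shf (fun a => P1.qs (q a) - P0.qs (q a)) (MvPolynomial.map P0.qs J)).coeff m) =
      (shf (fun a => (p.comp P1).qs (q a) - (p.comp P0).qs (q a)) (MvPolynomial.map (p.comp P0).qs J)).coeff m := by
    rw [← MvPolynomial.coeff_map, map_shf, MvPolynomial.map_map]
    congr 2
    · funext a
      rw [map_sub, Pj.comp_qs, Pj.comp_qs]
    · ext n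
      rw [MvPolynomial.coeff_map, MvPolynomial.coeff_map, Pj.comp_qs]
      rfl
  rw [e1]
  rw [Pj.comp_qs] at h4
  exact h4

/-- (F3), `|m| = 1`: the first jets at the second point -/
theorem Bx.jet1 (hB : Bx g q z J r) (hb : Bs g q s) (hs : 0 ≤ s) (hs1 : s < 1) (hr : r ≤ 1) {W : Sp} (P0 P1 : Pj W S)
    (hc : ∀ i, P0.qs (g i) = P1.qs (g i)) (a : β) :
    MvPolynomial.eval (fun a => P1.qs (q a) - P0.qs (q a)) (MvPolynomial.map P0.qs (MvPolynomial.pderiv a J)) -
      P1.qs (J.coeff (Finsupp.single a 1)) ∈ Id W (r - s) := by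
  have h1 := hB.jets hb hs hs1 hr P0 P1 hc (Finsupp.single a 1) (Finsupp.single_ne_zero.mpr one_ne_zero)
  rw [shf_single, dgr_single, one_mul, MvPolynomial.pderiv_map] at h1
  exact h1

/-- (F3), `|m| = 1`, order two: the first jets move by the second jets; the two points may be closer than the size of
the box -/
theorem Bx.jet2' (hB : Bx g q z J r) (hb : Bs g q s) (hs : 0 ≤ s) (hs1 : s < 1) (hr : r ≤ 1) {W : Sp} (P0 P1 : Pj W S)
    (hc : ∀ i, P0.qs (g i) = P1.qs (g i)) {σ : ℝ} (hσ : 0 ≤ σ) (hd : ∀ a, P1.qs (q a) - P0.qs (q a) ∈ Id W σ)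
    (a : β) :
    P1.qs (J.coeff (Finsupp.single a 1)) - P0.qs (J.coeff (Finsupp.single a 1)) -
      ∑ b, P0.qs ((MvPolynomial.pderiv a J).coeff (Finsupp.single b 1)) * (P1.qs (q b) - P0.qs (q b)) ∈
        Id W (min (r - s) (2 * σ)) := by
  have h1 := Id_mono (min_le_left (r - s) (2 * σ)) (hB.jet1 hb hs hs1 hr P0 P1 hc a)
  have h2 := Id_mono (min_le_right (r - s) (2 * σ))
    (second_order (MvPolynomial.map P0.qs (MvPolynomial.pderiv a J)) (fun a => P1.qs (q a) - P0.qs (q a)) hσ hd)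
  simp only [MvPolynomial.coeff_map] at h2
  rw [coeff_single'] at h2
  have h3 := Ideal.sub_mem _ h2 h1
  refine (congrArg (· ∈ Id W (min (r - s) (2 * σ))) ?_).mp h3
  ring

theorem Bx.jet2 (hB : Bx g q z J r) (hb : Bs g q s) (hs : 0 ≤ s) (hs1 : s < 1) (hr : r ≤ 1) {W : Sp} (P0 P1 : Pj W S)
    (hc : ∀ i, P0.qs (g i) = P1.qs (g i)) (a : β) :
    P1.qs (J.coeff (Finsupp.single a 1)) - P0.qs (J.coeff (Finsupp.single a 1)) -
      ∑ b, P0.qs ((MvPolynomial.pderiv a J).coeff (Finsupp.single b 1)) * (P1.qs (q b) - P0.qs (q b)) ∈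
        Id W (min (r - s) (2 * s)) :=
  hB.jet2' hb hs hs1 hr P0 P1 hc hs (hb.sub_mem hc) a

/-- (F3), zeroth order: the first jets are Hoelder functions of the base point -/
theorem Bx.jet0 (hB : Bx g q z J r) (hb : Bs g q s) (hs : 0 ≤ s) (hs1 : s < 1) (hr : r ≤ 1) {W : Sp} (P0 P1 : Pj W S)
    (hc : ∀ i, P0.qs (g i) = P1.qs (g i)) (a : β) :
    P1.qs (J.coeff (Finsupp.single a 1)) - P0.qs (J.coeff (Finsupp.single a 1)) ∈ Id W (min (r - s) s) := by
  have h1 := Id_mono (min_le_min_left (r - s) (by linarith : s ≤ 2 * s)) (hB.jet2 hb hs hs1 hr P0 P1 hc a)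
  have h2 : ∑ b, P0.qs ((MvPolynomial.pderiv a J).coeff (Finsupp.single b 1)) * (P1.qs (q b) - P0.qs (q b)) ∈
      Id W (min (r - s) s) := by
    apply Ideal.sum_mem
    intro b _
    apply Ideal.mul_mem_left
    exact Id_mono (min_le_right _ _) (hb.sub_mem hc b)
  have h3 := Ideal.add_mem _ h1 h2
  rwa [sub_add_cancel] at h3

end box

theorem taylor_PK1 {A : S.L} {P : Polynomial (QS S)} (hP : P ∈ PK1 A) {t : QS S} (ht : dg t 1 ≤ A) :
    Polynomial.taylor t P ∈ PK1 A := by
  rw [Polynomial.taylor_apply, Polynomial.comp_eq_sum_left, Polynomial.sum_def]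
  apply (PK1 A).sum_mem
  intro n _
  exact (PK1 A).mul_mem (PK1_C (hP n)) ((PK1 A).pow_mem ((PK1 A).add_mem (PK1_X A) (PK1_C ht)) _)

/-- new digits of a real parameter over its first digits -/
theorem h_new {t : QS S} {K : S.L} (ht : h (dg t 1) K = 1) {s : ℝ} (hs : 0 ≤ s) (hs1 : s ≤ 1) :
    h (dg t 1) (K ⊔ dg t s) = 1 - s := by
  have h1 := h_chain (dg t s) (dg t 1) K
  have h2 : dg t s ⊔ dg t 1 = dg t 1 := sup_eq_right.mpr (dg_mono _ hs1)
  rw [h2, ht, sup_comm (dg t s) K] at h1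
  have h3 : h (dg t s) K ≤ s := (h_le_H _ _).trans (H_dg_le _ hs)
  have h4 : h (dg t 1) (K ⊔ dg t s) ≤ h (dg t 1) (dg t s) := h_anti le_sup_right
  have h5 := h_dg_dg t hs1
  linarith

/-- two points of one curve over a base line, with the same box label: (F4), all orders -/
theorem Bx.curves {ι κ : Type} [Fintype ι] [Fintype κ] {g : ι → QS S} {q : β → QS S} {z : QS S}
    {J : MvPolynomial β (QS S)} {s r : ℝ} (hB : Bx g q z J r) (hs : 0 ≤ s) (hs1 : s < 1) (hr : r ≤ 1)
    {k : κ → QS S} {f x : β → QS S} {t : QS S} {C : Polynomial (QS S)} (hq : ∀ a, q a = f a + t * x a)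
    (hz : z = C.eval t) (hf : vd f 1 ≤ vd k 1) (hx : vd x 1 ≤ vd k 1) (hC : C ∈ PK1 (vd k 1))
    (ht : h (dg t 1) (vd k 1) = 1) (hg : vd g 1 ≤ vd k 1 ⊔ dg t s) (l : ℕ) (hl : l ≠ 0) :
    (Polynomial.taylor t C).coeff l - MvPolynomial.eval x (MvPolynomial.homogeneousComponent l J) ∈
      Id S (r - l * s) := by
  classical
  obtain ⟨B, hJ⟩ := exists_know J
  obtain ⟨γ, hγ, htγ⟩ := exists_round t hs hs1.le
  -- the family of the common functions
  obtain ⟨F, hF⟩ : ∃ F : κ ⊕ (β ⊕ (β ⊕ (Fin (C.natDegree + 1) ⊕ (Unit ⊕ ι)))) → QS S,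
    F = Sum.elim k (Sum.elim f (Sum.elim x (Sum.elim (fun j : Fin (C.natDegree + 1) => C.coeff (j : ℕ))
      (Sum.elim (fun _ : Unit => γ) g)))) := ⟨_, rfl⟩
  obtain ⟨D, p1, p2, hc, hi, hm⟩ := exists_copyS F
  have ck : ∀ a, p1.qs (k a) = p2.qs (k a) := fun a => by simpa [hF] using hc (Sum.inl a)
  have cf : ∀ a, p1.qs (f a) = p2.qs (f a) := fun a => by simpa [hF] using hc (Sum.inr (Sum.inl a))
  have cx : ∀ a, p1.qs (x a) = p2.qs (x a) := fun a => by simpa [hF] using hc (Sum.inr (Sum.inr (Sum.inl a)))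
  have cC : ∀ j : Fin (C.natDegree + 1), p1.qs (C.coeff (j : ℕ)) = p2.qs (C.coeff (j : ℕ)) :=
    fun a => by simpa [hF] using hc (Sum.inr (Sum.inr (Sum.inr (Sum.inl a))))
  have cγ : p1.qs γ = p2.qs γ := by simpa [hF] using hc (Sum.inr (Sum.inr (Sum.inr (Sum.inr (Sum.inl ())))))
  have cg : ∀ i, p1.qs (g i) = p2.qs (g i) :=
    fun a => by simpa [hF] using hc (Sum.inr (Sum.inr (Sum.inr (Sum.inr (Sum.inr a)))))
  have hFle : vd F 1 ≤ vd k 1 ⊔ dg t s := by
    rw [vd_le]
    rintro (a | a | a | a | a | a)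
    · rw [hF]
      exact (dg_le_vd k 1 a).trans le_sup_left
    · rw [hF]
      exact ((dg_le_vd f 1 a).trans hf).trans le_sup_left
    · rw [hF]
      exact ((dg_le_vd x 1 a).trans hx).trans le_sup_left
    · rw [hF]
      exact (hC a).trans le_sup_left
    · rw [hF]
      exact hγ.trans le_sup_right
    · rw [hF]
      exact (dg_le_vd g 1 a).trans hg
  have cCp : MvPolynomial.map p1.qs J = MvPolynomial.map p1.qs J := rfl
  have cP : Polynomial.map p1.qs C = Polynomial.map p2.qs C := by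
    ext n
    rw [Polynomial.coeff_map, Polynomial.coeff_map]
    by_cases hn : n ≤ C.natDegree
    · exact cC ⟨n, Nat.lt_succ_of_le hn⟩
    · rw [Polynomial.coeff_eq_zero_of_natDegree_lt (by omega), map_zero, map_zero]
  -- the displacement
  have htd : p2.qs t - p1.qs t ∈ Id D s := by
    have h0 := qs_Id p1 htγ
    have h1 := qs_Id p2 htγ
    rw [map_sub] at h0 h1
    rw [cγ] at h0
    have h2 := (Id D s).sub_mem h1 h0
    rwa [sub_sub_sub_cancel_right] at h2
  obtain ⟨τ, hτ, _⟩ := exists_div' hs hs1.le htd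
  have hτ' : p2.qs t = p1.qs t + sc D s * τ := by
    rw [← hτ]
    ring
  set A₀ : S.L := vd k 1 ⊔ dg t 1 ⊔ B with hA₀
  set A : D.L := p1.map A₀ with hA
  have hkA : vd k 1 ≤ A₀ := le_sup_left.trans le_sup_left
  have htA : dg t 1 ≤ A₀ := le_sup_right.trans le_sup_left
  have hBA : B ≤ A₀ := le_sup_right
  have hτr : h (dg τ (1 - s)) A = 1 - s := by
    apply le_antisymm ((h_le_H _ _).trans (H_dg_le _ (by linarith)))
    have h1 : p2.map (dg t 1) ≤ dg τ (1 - s) ⊔ A := by
      rw [← p2.qs_dg, hτ']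
      refine (dg_add_le _ _ le_rfl).trans (sup_le ?_ ?_)
      · rw [p1.qs_dg]
        exact (Pj.map_mono _ htA).trans le_sup_right
      · exact (dg_sc_mul hs hs1.le le_rfl _).trans le_sup_left
    have h2 : h (p2.map (dg t 1)) (A ⊔ p2.map (vd F 1)) = h (dg t 1) (vd F 1) := by
      have h3 := hi A₀ (dg t 1)
      rw [hm 1] at h3
      rw [I_zero_iff_h'.mp h3, Pj.h_map]
    have h4 : 1 - s ≤ h (dg t 1) (vd F 1) := by
      rw [← h_new ht hs hs1.le]
      exact h_anti hFle
    have h5 := h_mono (B := A) h1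
    rw [h_sup_right_of_le le_rfl] at h5
    have h6 : h (p2.map (dg t 1)) (A ⊔ p2.map (vd F 1)) ≤ h (p2.map (dg t 1)) A := h_anti le_sup_left
    linarith
  -- the equation
  have hrel := hB D p1 p2 cg
  set G : Polynomial (QS D) := Polynomial.taylor (p1.qs t) (Polynomial.map p1.qs C) -
    Polynomial.C ((Polynomial.map p1.qs C).eval (p1.qs t)) -
    alng (fun a => p1.qs (x a)) (MvPolynomial.map p1.qs J) with hG
  have hCk : Polynomial.map p1.qs C ∈ PK1 A := by
    intro n
    rw [Polynomial.coeff_map, p1.qs_dg]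
    exact Pj.map_mono _ ((hC n).trans hkA)
  have htk : dg (p1.qs t) 1 ≤ A := by
    rw [p1.qs_dg]
    exact Pj.map_mono _ htA
  have hGk : G ∈ PK1 A := by
    apply (PK1 A).sub_mem
    · apply (PK1 A).sub_mem (taylor_PK1 hCk htk)
      apply PK1_C
      rw [← Polynomial.taylor_coeff_zero]
      exact taylor_PK1 hCk htk 0
    · apply alng_PK1
      · intro a
        rw [p1.qs_dg]
        exact Pj.map_mono _ (((dg_le_vd x 1 a).trans hx).trans hkA)
      · exact PK_mono (Pj.map_mono _ hBA) (map_PK p1 hJ)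
  have hGe : G.eval (sc D s * τ) ∈ Id D r := by
    have e1 : (Polynomial.taylor (p1.qs t) (Polynomial.map p1.qs C)).eval (sc D s * τ) = p2.qs z := by
      rw [Polynomial.taylor_eval, add_comm, ← hτ', cP, Polynomial.eval_map, Polynomial.eval₂_hom, hz]
    have e2 : (Polynomial.map p1.qs C).eval (p1.qs t) = p1.qs z := by
      rw [Polynomial.eval_map, Polynomial.eval₂_hom, hz]
    have e3 : (alng (fun a => p1.qs (x a)) (MvPolynomial.map p1.qs J)).eval (sc D s * τ) =
        MvPolynomial.eval (fun a => p2.qs (q a) - p1.qs (q a)) (MvPolynomial.map p1.qs J) := by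
      rw [alng_eval]
      congr 1
      congr 1
      funext a
      rw [hq a, map_add, map_add, map_mul, map_mul, ← cf a, ← cx a, hτ']
      ring
    rw [hG, Polynomial.eval_sub, Polynomial.eval_sub, Polynomial.eval_C, e1, e2, e3]
    exact hrel
  have h1 := coeff_scaled G τ hGk (sub_pos.mpr hs1) (by linarith) hτr hs hr hGe l
  rw [hG, Polynomial.coeff_sub, Polynomial.coeff_sub, Polynomial.coeff_C, if_neg hl, sub_zero, alng_coeff] at h1
  have e4 : (Polynomial.taylor (p1.qs t) (Polynomial.map p1.qs C)).coeff l = p1.qs ((Polynomial.taylor t C).coeff l) := by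
    rw [← Polynomial.coeff_map, Polynomial.map_taylor]
  have e5 : MvPolynomial.eval (fun a => p1.qs (x a))
      (MvPolynomial.homogeneousComponent l (MvPolynomial.map p1.qs J)) =
      p1.qs (MvPolynomial.eval x (MvPolynomial.homogeneousComponent l J)) := by
    rw [qs_eval]
    congr 1
    ext m
    rw [MvPolynomial.coeff_homogeneousComponent, MvPolynomial.coeff_map, MvPolynomial.coeff_map,
      MvPolynomial.coeff_homogeneousComponent]
    split_ifs
    · rfl
    · rw [map_zero]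
  rw [e4, e5, ← map_sub, p1.qs_mem_Id (by
    have : (0 : ℝ) ≤ l * s := by positivity
    linarith)] at h1
  exact h1

/-- (F4), `k = 1`: the derivative of a curve is the value of the first jets on the direction of the base line -/
theorem Bx.curve {ι κ : Type} [Fintype ι] [Fintype κ] {g : ι → QS S} {q : β → QS S} {z : QS S}
    {J : MvPolynomial β (QS S)} {s r : ℝ} (hB : Bx g q z J r) (hs : 0 ≤ s) (hs1 : s < 1) (hr : r ≤ 1)
    {k : κ → QS S} {f x : β → QS S} {t : QS S} {C : Polynomial (QS S)} (hq : ∀ a, q a = f a + t * x a)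
    (hz : z = C.eval t) (hf : vd f 1 ≤ vd k 1) (hx : vd x 1 ≤ vd k 1) (hC : C ∈ PK1 (vd k 1))
    (ht : h (dg t 1) (vd k 1) = 1) (hg : vd g 1 ≤ vd k 1 ⊔ dg t s) :
    (Polynomial.derivative C).eval t - ∑ a, x a * J.coeff (Finsupp.single a 1) ∈ Id S (r - s) := by
  have h1 := hB.curves hs hs1 hr hq hz hf hx hC ht hg 1 one_ne_zero
  rw [Polynomial.taylor_coeff_one, ← alng_coeff, alng_coeff_one, Nat.cast_one, one_mul] at h1
  exact h1

end

end Pool.Agent.Helper79.JET
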