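import Pool.Agent.Helper21.DO.Pl
import Pool.Agent.Helper57.TA.Clo

/-! The bridge from boxes to the flat system: polynomial algebra. Scaled polynomials in one variable, recentring of
small polynomials. -/

set_option autoImplicit false
set_option linter.unusedSectionVars false

namespace Pool.Agent.Helper79.JET

open Finset Filter Topology Pool.Agent.Helper69.RK Pool.Agent.Helper31.EC Pool.Agent.Helper31.EC.Sp
open Pool.Agent.Helper31.EC.QS Pool.Agent.Helper57.TA Pool.Agent.Helper21.DO

noncomputable section

variable {S : Sp}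

theorem sc_mono_mul {u : ℝ} (hu : 0 ≤ u) (n : ℕ) (τ : QS S) : (sc S u * τ) ^ n = sc S (n * u) * τ ^ n := by
  rw [mul_pow, sc_nat_mul hu]

/-- multiplication by a scale lowers the necessary precision -/
theorem dg_sc_mul {u r : ℝ} (hu : 0 ≤ u) (hur : u ≤ r) (hr : r ≤ 1) (f : QS S) :
    dg (sc S u * f) r ≤ dg f (r - u) := by
  obtain ⟨g, hg, hfg⟩ := exists_round f (sub_nonneg.mpr hur) (by linarith)
  have h1 : sc S u * f - sc S u * g ∈ Id S r := by
    rw [← mul_sub]
    have h2 := sc_mul_mem hu hfg
    rwa [add_sub_cancel] at h2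
  rw [dg_eq_of_sub_mem h1 le_rfl hr]
  have h3 : dg (sc S u * g) r ≤ dg g 1 := by
    have h4 : sc S u * g ∈ Kn S r hr (dg g 1) := by
      apply (Kn S r hr _).mul_mem
      · show dg _ _ ≤ _
        rw [dg_sc]
        exact bot_le
      · exact dg_mono _ hr
    exact h4
  exact h3.trans hg

/-- small polynomials of one scaled variable -/
theorem coeff_scaled (P : Polynomial (QS S)) (τ : QS S) {A : S.L} (hP : P ∈ PK1 A) {ℓ : ℝ} (hℓ : 0 < ℓ) (hℓ1 : ℓ ≤ 1)
    (hτ : h (dg τ ℓ) A = ℓ) {s r : ℝ} (hs : 0 ≤ s) (hr : r ≤ 1) (hz : P.eval (sc S s * τ) ∈ Id S r) (n : ℕ) :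
    P.coeff n ∈ Id S (r - n * s) := by
  by_cases hn : n ≤ P.natDegree
  · set c : Fin (P.natDegree + 1) → QS S := fun a => sc S ((a : ℕ) * s) * P.coeff (a : ℕ) with hc
    have h1 : h (dg τ ℓ) (vd c 1) = ℓ := by
      apply le_antisymm ((h_le_H _ _).trans (H_dg_le _ hℓ.le))
      refine hτ.ge.trans (h_anti ?_)
      rw [vd_le]
      intro a
      apply (Kn S 1 le_rfl A).mul_mem
      · show dg _ _ ≤ _
        rw [dg_sc]
        exact bot_le
      · exact hP _
    have h2 : pe c τ ∈ Id S r := by
      have e : pe c τ = P.eval (sc S s * τ) := by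
        unfold pe
        rw [Polynomial.eval_eq_sum_range, Finset.sum_range]
        apply Finset.sum_congr rfl
        intro a _
        rw [sc_mono_mul hs, hc]
        ring
      rw [e]
      exact hz
    have h3 := top_zero c τ hℓ hℓ1 h1 hr h2 ⟨n, Nat.lt_succ_of_le hn⟩
    exact mem_of_sc_mul (by positivity) hr h3
  · rw [Polynomial.coeff_eq_zero_of_natDegree_lt (by omega)]
    exact (Id S _).zero_mem

variable {β : Type} [Fintype β]

/-- a polynomial along a line through the origin -/
def alng (u : β → QS S) (J : MvPolynomial β (QS S)) : Polynomial (QS S) :=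
  MvPolynomial.aeval (fun a => Polynomial.C (u a) * Polynomial.X) J

theorem alng_eval (u : β → QS S) (J : MvPolynomial β (QS S)) (y : QS S) :
    (alng u J).eval y = MvPolynomial.eval (fun a => y * u a) J := by
  unfold alng
  rw [eval_aeval]
  congr 1
  congr 1
  funext a
  rw [Polynomial.eval_mul, Polynomial.eval_C, Polynomial.eval_X, mul_comm]

theorem alng_PK1 {A : S.L} {u : β → QS S} (hu : ∀ a, dg (u a) 1 ≤ A) {J : MvPolynomial β (QS S)} (hJ : J ∈ PK A) :
    alng u J ∈ PK1 A :=
  PK1_aeval hJ _ fun a => (PK1 A).mul_mem (PK1_C (hu a)) (PK1_X A)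

theorem coeff_single' {A : Type*} [CommRing A] {σ : Type*} (P : MvPolynomial σ A) (i : σ) :
    (MvPolynomial.pderiv i P).coeff 0 = P.coeff (Finsupp.single i 1) := (coeff_single_eq P i).symm

theorem alng_coeff_one (u : β → QS S) (J : MvPolynomial β (QS S)) :
    (alng u J).coeff 1 = ∑ a, u a * J.coeff (Finsupp.single a 1) := by
  have h1 : (alng u J).coeff 1 = (Polynomial.derivative (alng u J)).eval 0 := by
    rw [← Polynomial.coeff_zero_eq_eval_zero, Polynomial.coeff_derivative]
    simp
  rw [h1]
  unfold alng
  rw [derivative_aeval, Polynomial.eval_finsetSum]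
  apply Finset.sum_congr rfl
  intro a _
  rw [Polynomial.eval_mul, eval_aeval]
  have h2 : (fun i : β => Polynomial.eval 0 (Polynomial.C (u i) * Polynomial.X)) = fun _ => 0 := by
    funext i
    rw [Polynomial.eval_mul, Polynomial.eval_X, mul_zero]
  rw [h2, ← coeff_zero_eval, coeff_single', mul_comm]
  congr 1
  simp

theorem alng_coeff (u : β → QS S) (J : MvPolynomial β (QS S)) (l : ℕ) :
    (alng u J).coeff l = MvPolynomial.eval u (MvPolynomial.homogeneousComponent l J) := by
  classical
  induction J using MvPolynomial.induction_on' with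
  | monomial m c =>
    unfold alng
    rw [MvPolynomial.aeval_monomial]
    have h1 : (m.prod fun i k => (Polynomial.C (u i) * Polynomial.X) ^ k) =
        Polynomial.C (∏ i, u i ^ m i) * Polynomial.X ^ (∑ i, m i) := by
      rw [Finsupp.prod_fintype _ _ fun a => pow_zero _, map_prod, ← Finset.prod_pow_eq_pow_sum,
        ← Finset.prod_mul_distrib]
      apply Finset.prod_congr rfl
      intro i _
      rw [mul_pow, map_pow]
    rw [h1]
    have h2 : (algebraMap (QS S) (Polynomial (QS S))) c = Polynomial.C c := rfl
    rw [h2, ← mul_assoc, ← map_mul, Polynomial.coeff_C_mul_X_pow]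
    have h3 : m.degree = ∑ i, m i := by
      rw [Finsupp.degree_eq_sum]
    by_cases h : l = ∑ i, m i
    · rw [if_pos h]
      have h4 : MvPolynomial.homogeneousComponent l (MvPolynomial.monomial m c) = MvPolynomial.monomial m c := by
        apply MvPolynomial.homogeneousComponent_of_mem _ |>.trans
        · rw [if_pos rfl]
        · rw [MvPolynomial.mem_homogeneousSubmodule]
          exact MvPolynomial.isHomogeneous_monomial c (by rw [h3, h])
      rw [h4, MvPolynomial.eval_monomial, Finsupp.prod_fintype _ _ fun a => pow_zero _]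
    · rw [if_neg h]
      have h4 : MvPolynomial.homogeneousComponent l (MvPolynomial.monomial m c) = 0 := by
        have h5 : MvPolynomial.monomial m c ∈ MvPolynomial.homogeneousSubmodule β (QS S) (∑ i, m i) := by
          rw [MvPolynomial.mem_homogeneousSubmodule]
          exact MvPolynomial.isHomogeneous_monomial c h3
        rw [MvPolynomial.homogeneousComponent_of_mem h5, if_neg h]
      rw [h4, map_zero]
  | add p q hp hq =>
    have h1 : alng u (p + q) = alng u p + alng u q := by
      unfold alng
      rw [map_add]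
    rw [h1, Polynomial.coeff_add, hp, hq, map_add, map_add]

/-- the polynomial with a new origin -/
def shf (x : β → QS S) (J : MvPolynomial β (QS S)) : MvPolynomial β (QS S) :=
  MvPolynomial.aeval (fun a => MvPolynomial.C (x a) + MvPolynomial.X a) J

theorem shf_eval (x y : β → QS S) (J : MvPolynomial β (QS S)) :
    MvPolynomial.eval y (shf x J) = MvPolynomial.eval (fun a => x a + y a) J := by
  unfold shf
  rw [eval_sbs]
  congr 1
  congr 1
  funext a
  rw [map_add, MvPolynomial.eval_C, MvPolynomial.eval_X]

theorem shf_PK {A : S.L} {x : β → QS S} (hx : ∀ a, dg (x a) 1 ≤ A) {J : MvPolynomial β (QS S)} (hJ : J ∈ PK A) :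
    shf x J ∈ PK A :=
  sbs_PK hJ fun a => (PK A).add_mem (C_mem (hx a)) (X_mem A a)

theorem shf_zero (x : β → QS S) (J : MvPolynomial β (QS S)) : (shf x J).coeff 0 = MvPolynomial.eval x J := by
  rw [coeff_zero_eval, shf_eval]
  congr 1
  congr 1
  funext a
  rw [add_zero]

theorem shf_pderiv (x : β → QS S) (J : MvPolynomial β (QS S)) (a : β) :
    MvPolynomial.pderiv a (shf x J) = shf x (MvPolynomial.pderiv a J) := by
  classical
  unfold shf
  apply pderiv_sbs
  intro b
  rw [map_add, MvPolynomial.pderiv_C, zero_add, MvPolynomial.pderiv_X]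
  by_cases h : b = a
  · subst h
    rw [Pi.single_eq_same, if_pos rfl]
  · rw [Pi.single_eq_of_ne h, if_neg h]

theorem shf_single (x : β → QS S) (J : MvPolynomial β (QS S)) (a : β) :
    (shf x J).coeff (Finsupp.single a 1) = MvPolynomial.eval x (MvPolynomial.pderiv a J) := by
  rw [coeff_single_eq, shf_pderiv, shf_zero]

theorem map_shf {T : Sp} (p : Pj T S) (x : β → QS S) (J : MvPolynomial β (QS S)) :
    MvPolynomial.map p.qs (shf x J) = shf (fun a => p.qs (x a)) (MvPolynomial.map p.qs J) := by
  unfold shf
  rw [map_sbs]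
  congr 2
  funext a
  rw [map_add, MvPolynomial.map_C, MvPolynomial.map_X]

/-- RECENTRING: the jets at the new origin are the jets of the polynomial with the new origin -/
theorem recentre {A : S.L} {wt : β → ℝ} (hwt : ∀ a, 0 ≤ wt a) {s : ℝ} (hs : 0 ≤ s) {ξ : β → QS S} {ℓ : ℝ}
    (hℓ : 0 < ℓ) (hℓ1 : ℓ ≤ 1) (hξ : Rt ℓ ξ A) {J0 J1 : MvPolynomial β (QS S)} {x : β → QS S} (h0 : J0 ∈ PK A)
    (h1 : J1 ∈ PK A) (hx : ∀ a, dg (x a) 1 ≤ A) {r : ℝ} (hr : r ≤ 1)
    (he : MvPolynomial.eval (fun a => x a + sc S (wt a * s) * ξ a) J0 - MvPolynomial.eval x J0 -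
      MvPolynomial.eval (fun a => sc S (wt a * s) * ξ a) J1 ∈ Id S r) (m : β →₀ ℕ) (hm : m ≠ 0) :
    (shf x J0).coeff m - J1.coeff m ∈ Id S (r - wgt wt m * s) := by
  classical
  set Q : MvPolynomial β (QS S) := shf x J0 - MvPolynomial.C (MvPolynomial.eval x J0) - J1 with hQ
  have hQk : Q ∈ PK A := (PK A).sub_mem ((PK A).sub_mem (shf_PK hx h0)
    (C_mem (QS.eval_mem h0 x le_rfl hx))) h1
  have hQe : MvPolynomial.eval (fun a => sc S (wt a * s) * ξ a) Q ∈ Id S r := by
    rw [hQ, map_sub, map_sub, shf_eval, MvPolynomial.eval_C]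
    exact he
  have h2 := small_raw hwt hs hℓ hℓ1 hξ hr le_rfl (PKr_of_PK le_rfl hQk) hQe m
  rw [hQ, MvPolynomial.coeff_sub, MvPolynomial.coeff_sub, MvPolynomial.coeff_C, if_neg (Ne.symm hm), sub_zero] at h2
  exact h2

/-- polynomials of small variables up to second order -/
theorem second_order (P : MvPolynomial β (QS S)) (x : β → QS S) {s : ℝ} (hs : 0 ≤ s) (hx : ∀ a, x a ∈ Id S s) :
    MvPolynomial.eval x P - P.coeff 0 - ∑ a, P.coeff (Finsupp.single a 1) * x a ∈ Id S (2 * s) := by
  classical
  have key : ∀ m : β →₀ ℕ, ∀ c : QS S,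
      MvPolynomial.eval x (MvPolynomial.monomial m c) - (MvPolynomial.monomial m c).coeff 0 -
        ∑ a, (MvPolynomial.monomial m c).coeff (Finsupp.single a 1) * x a ∈ Id S (2 * s) := by
    intro m c
    by_cases h0 : m = 0
    · subst h0
      have h1 : ∑ a, (MvPolynomial.monomial (0 : β →₀ ℕ) c).coeff (Finsupp.single a 1) * x a = 0 := by
        apply Finset.sum_eq_zero
        intro a _
        rw [MvPolynomial.coeff_monomial, if_neg, zero_mul]
        exact Ne.symm (Finsupp.single_ne_zero.mpr one_ne_zero)
      rw [h1, MvPolynomial.coeff_monomial, if_pos rfl, MvPolynomial.eval_monomial, Finsupp.prod_zero_index, mul_one,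
        sub_self, sub_zero]
      exact Ideal.zero_mem _
    · obtain ⟨a, ha⟩ := Finsupp.ne_iff.mp h0
      rw [Finsupp.zero_apply] at ha
      set m' := m - Finsupp.single a 1 with hm'
      have hmm : m = Finsupp.single a 1 + m' := by
        ext b
        by_cases hb : b = a
        · subst hb
          simp only [hm', Finsupp.add_apply, Finsupp.tsub_apply, Finsupp.single_eq_same]
          omega
        · simp [hm', Ne.symm hb]
      have e0 : (MvPolynomial.monomial m c).coeff 0 = 0 := by
        rw [MvPolynomial.coeff_monomial, if_neg h0]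
      by_cases h1 : m' = 0
      · have hm1 : m = Finsupp.single a 1 := by rw [hmm, h1, add_zero]
        have e1 : ∑ b, (MvPolynomial.monomial m c).coeff (Finsupp.single b 1) * x b = c * x a := by
          rw [Finset.sum_eq_single a]
          · rw [hm1, MvPolynomial.coeff_monomial, if_pos rfl]
          · intro b _ hb
            rw [hm1, MvPolynomial.coeff_monomial, if_neg, zero_mul]
            intro hc
            exact hb ((Finsupp.single_left_injective one_ne_zero) hc).symm
          · intro h
            exact absurd (Finset.mem_univ a) h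
        rw [e0, e1, sub_zero, MvPolynomial.eval_monomial, hm1, Finsupp.prod_single_index (by rw [pow_zero]), pow_one,
          sub_self]
        exact Ideal.zero_mem _
      · obtain ⟨b, hb⟩ := Finsupp.ne_iff.mp h1
        rw [Finsupp.zero_apply] at hb
        have e1 : ∑ b, (MvPolynomial.monomial m c).coeff (Finsupp.single b 1) * x b = 0 := by
          apply Finset.sum_eq_zero
          intro b' _
          rw [MvPolynomial.coeff_monomial, if_neg, zero_mul]
          intro hc
          apply h1
          ext d
          have h2 := DFunLike.congr_fun hc a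
          have h3 := DFunLike.congr_fun hc d
          rw [hmm] at h2 h3
          simp only [Finsupp.add_apply, Finsupp.single_eq_same, Finsupp.single_apply, Finsupp.zero_apply] at h2 h3 ⊢
          by_cases hba : b' = a
          · subst hba
            rw [if_pos rfl] at h2
            by_cases hda : b' = d
            · subst hda
              rw [if_pos rfl] at h3
              omega
            · rw [if_neg hda] at h3
              omega
          · rw [if_neg hba] at h2
            omega
        have e2 : MvPolynomial.eval x (MvPolynomial.monomial m c) =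
            (x a * x b) * MvPolynomial.eval x (MvPolynomial.monomial (m' - Finsupp.single b 1) c) := by
          have h4 : m = Finsupp.single a 1 + (Finsupp.single b 1 + (m' - Finsupp.single b 1)) := by
            rw [hmm]
            congr 1
            ext d
            by_cases hd : d = b
            · subst hd
              simp only [Finsupp.add_apply, Finsupp.tsub_apply, Finsupp.single_eq_same]
              omega
            · simp [Ne.symm hd]
          have h5 : MvPolynomial.monomial m c = MvPolynomial.X a * (MvPolynomial.X b *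
              MvPolynomial.monomial (m' - Finsupp.single b 1) c) := by
            rw [MvPolynomial.X, MvPolynomial.X, MvPolynomial.monomial_mul, MvPolynomial.monomial_mul, one_mul, one_mul,
              ← h4]
          rw [h5, map_mul, map_mul, MvPolynomial.eval_X, MvPolynomial.eval_X]
          ring
        rw [e0, e1, sub_zero, sub_zero, e2]
        apply Ideal.mul_mem_right
        have h6 := mul_mem_Id hs hs (hx a) (hx b)
        rwa [← two_mul] at h6
  induction P using MvPolynomial.induction_on' with
  | monomial m c => exact key m c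
  | add p q hp hq =>
    have e : MvPolynomial.eval x (p + q) - (p + q).coeff 0 - ∑ a, (p + q).coeff (Finsupp.single a 1) * x a =
        (MvPolynomial.eval x p - p.coeff 0 - ∑ a, p.coeff (Finsupp.single a 1) * x a) +
        (MvPolynomial.eval x q - q.coeff 0 - ∑ a, q.coeff (Finsupp.single a 1) * x a) := by
      simp only [map_add, MvPolynomial.coeff_add, add_mul, Finset.sum_add_distrib]
      ring
    rw [e]
    exact Ideal.add_mem _ hp hq

/-- second jets are symmetric -/
theorem hess_symm {A : Type*} [CommRing A] {σ : Type*} (P : MvPolynomial σ A) (a b : σ) :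
    (MvPolynomial.pderiv a P).coeff (Finsupp.single b 1) = (MvPolynomial.pderiv b P).coeff (Finsupp.single a 1) := by
  classical
  rw [MvPolynomial.coeff_pderiv, MvPolynomial.coeff_pderiv, add_comm (Finsupp.single b 1) (Finsupp.single a 1)]
  by_cases h : a = b
  · subst h
    rfl
  · rw [Finsupp.single_eq_of_ne h, Finsupp.single_eq_of_ne (Ne.symm h)]

end

end Pool.Agent.Helper79.JET
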