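import Pool.Agent.Helper79.JET.Jet
import Pool.Agent.Helper50.VC.SloV

/-! Second jets of the flat system (curved lines over a flat base, vector valued top coordinates) from its boxes. -/

set_option autoImplicit false
set_option linter.unusedSectionVars false

namespace Pool.Agent.Helper79.JET

open Finset Filter Topology Pool.Agent.Helper69.RK Pool.Agent.Helper31.EC Pool.Agent.Helper31.EC.Sp
open Pool.Agent.Helper31.EC.QS Pool.Agent.Helper57.TA Pool.Agent.Helper21.DO Pool.Agent.Helper38.NS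
open Pool.Agent.Helper96.FLT Pool.Agent.Helper50.VC

noncomputable section

variable {S : Sp} {d k N : ℕ}

/-- derivative of the curve at the point -/
def dz (s : VB S d k N) (n : Fin N) : QS S := ∑ j : Fin k, (((j : ℕ) : QS S) + 1) * s.c n j.succ * s.t ^ (j : ℕ)

/-- the curve as a polynomial -/
def cpol (s : VB S d k N) (n : Fin N) : Polynomial (QS S) := ∑ j : Fin (k + 1), Polynomial.C (s.c n j) * Polynomial.X ^ (j : ℕ)

theorem cpol_eval (s : VB S d k N) (n : Fin N) : (cpol s n).eval s.t = s.fv.z n := by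
  rw [VB.z_eq]
  unfold cpol pe
  rw [Polynomial.eval_finsetSum]
  apply Finset.sum_congr rfl
  intro j _
  rw [Polynomial.eval_mul, Polynomial.eval_C, Polynomial.eval_pow, Polynomial.eval_X]

theorem cpol_deriv (s : VB S d k N) (n : Fin N) : (Polynomial.derivative (cpol s n)).eval s.t = dz s n := by
  unfold cpol dz
  rw [Polynomial.derivative_sum, Polynomial.eval_finsetSum, Fin.sum_univ_succ]
  have h0 : (Polynomial.derivative (Polynomial.C (s.c n 0) * Polynomial.X ^ ((0 : Fin (k + 1)) : ℕ))).eval s.t = 0 := by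
    simp
  rw [h0, zero_add]
  apply Finset.sum_congr rfl
  intro j _
  rw [Fin.val_succ, Polynomial.derivative_C_mul_X_pow, Polynomial.eval_mul, Polynomial.eval_C, Polynomial.eval_pow,
    Polynomial.eval_X, Nat.add_sub_cancel, Nat.cast_add, Nat.cast_one]
  ring

theorem cpol_PK1 {s : VB S d k N} (hs : s.Hyp) (n : Fin N) : cpol s n ∈ PK1 (s.fv.iL ⊔ s.fv.iB) := by
  unfold cpol
  apply (PK1 _).sum_mem
  intro j _
  exact (PK1 _).mul_mem (PK1_C ((dg_le_vd s.cf 1 (n, j)).trans hs.vc)) ((PK1 _).pow_mem (PK1_X _) _)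

/-- the rate of the first jets up to second order -/
def mm (w : ℝ) : ℝ := min 2 (w - 1)

/-- SECOND JETS of the flat system. `G r`: a literal label of the box of scale `r`, known to the curve and the first
digits of the height -/
structure JJ (s : VB S d k N) (W : Fin N → ℝ) (r1 : ℝ) where
  c1 : Fin N → Fin (d + 1) → QS S
  c2 : Fin N → Fin (d + 1) → Fin (d + 1) → QS S
  k1 : ∀ n a, dg (c1 n a) 1 ≤ vd s.q 1
  k2 : ∀ n a b, dg (c2 n a b) 1 ≤ vd s.q 1
  symm : ∀ n a b, c2 n a b = c2 n b a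
  F4 : ∀ n, dz s n - ∑ a, c1 n a * s.v a ∈ QS.Id S (mm (W n) * r1)
  m : ℝ → ℕ
  G : ∀ r, Fin (m r) → QS S
  kG : ∀ r, 0 ≤ r → r ≤ r1 → vd (G r) 1 ≤ s.fv.iL ⊔ s.fv.iB ⊔ dg s.t r
  Gq : ∀ r, 0 ≤ r → r ≤ r1 → ∀ (D : Sp) (p p' : Pj D S), (∀ i, p.qs (G r i) = p'.qs (G r i)) → ∀ a,
    p'.qs (s.q a) - p.qs (s.q a) ∈ QS.Id D r
  F3 : ∀ n r, 0 ≤ r → r ≤ r1 → ∀ (D : Sp) (p p' : Pj D S), (∀ i, p.qs (G r i) = p'.qs (G r i)) → ∀ a,
    p'.qs (c1 n a) - p.qs (c1 n a) - ∑ b, p.qs (c2 n a b) * (p'.qs (s.q b) - p.qs (s.q b)) ∈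
      QS.Id D (mm (W n) * r)

/-- BOXES of the flat untilted system: literal labels `G r` of the boxes of scale `r ≤ r1`, one system of jets -/
structure BB (s : VB S d k N) (W : Fin N → ℝ) (r1 : ℝ) where
  J : Fin N → MvPolynomial (Fin (d + 1)) (QS S)
  kJ : ∀ n, J n ∈ PK (vd s.q 1)
  m : ℝ → ℕ
  G : ∀ r, Fin (m r) → QS S
  kG : ∀ r, 0 ≤ r → r ≤ r1 → vd (G r) 1 ≤ s.fv.iL ⊔ s.fv.iB ⊔ dg s.t r
  bs : ∀ r, 0 ≤ r → r ≤ r1 → Bs (G r) s.q r
  bx : ∀ n r, 0 ≤ r → r ≤ r1 → Bx (G r) s.q (s.fv.z n) (J n) (W n * r)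

theorem mm_mul_le {w r : ℝ} (hr : 0 ≤ r) : mm w * r ≤ min (w * r - r) (2 * r) := by
  unfold mm
  apply le_min
  · have := mul_le_mul_of_nonneg_right (min_le_right 2 (w - 1)) hr
    linarith
  · exact mul_le_mul_of_nonneg_right (min_le_left 2 (w - 1)) hr

/-- the box label may be bigger than the curve: all curve information `K` -/
theorem F4_of {s : VB S d k N} (hs : s.Hyp) {κ ι : Type} [Fintype κ] [Fintype ι] {kf : κ → QS S}
    (hk : s.fv.iL ⊔ s.fv.iB ≤ vd kf 1) (ht : h (dg s.t 1) (vd kf 1) = 1) {g : ι → QS S} {n : Fin N}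
    {J : MvPolynomial (Fin (d + 1)) (QS S)} {w r : ℝ} (hB : Bx g s.q (s.fv.z n) J (w * r)) (hr : 0 ≤ r) (hr1 : r < 1)
    (hw : w * r ≤ 1) (hg : vd g 1 ≤ vd kf 1 ⊔ dg s.t r) :
    dz s n - ∑ a, J.coeff (Finsupp.single a 1) * s.v a ∈ QS.Id S (mm w * r) := by
  have hL : s.fv.iL ≤ vd kf 1 := le_sup_left.trans hk
  have hav : vd s.av 1 ≤ vd kf 1 := by
    unfold VB.av
    rw [vd_cons]
    apply sup_le
    · exact (Kn S 1 le_rfl _).zero_mem
    · have h1 : vd s.a 1 ≤ s.fv.iL := le_sup_left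
      exact h1.trans hL
  have hv : vd s.v 1 ≤ vd kf 1 := by
    unfold VB.v
    rw [vd_cons]
    apply sup_le
    · exact (Kn S 1 le_rfl _).one_mem
    · have h1 : vd s.x 1 ≤ s.fv.iL := le_sup_right
      exact h1.trans hL
  have h1 := hB.curve hr hr1 hw (k := kf) (f := s.av) (x := s.v) (t := s.t) (C := cpol s n) s.q_eq
    (cpol_eval s n).symm hav hv (fun j => (cpol_PK1 hs n j).trans hk) ht hg
  rw [cpol_deriv] at h1
  have e : ∑ a, s.v a * J.coeff (Finsupp.single a 1) = ∑ a, J.coeff (Finsupp.single a 1) * s.v a :=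
    Finset.sum_congr rfl fun a _ => mul_comm _ _
  rw [e] at h1
  exact Id_mono ((mm_mul_le hr).trans (min_le_left _ _)) h1

/-- (F3) and (F4) for the flat system -/
def BB.jj {s : VB S d k N} {W : Fin N → ℝ} {r1 : ℝ} (B : BB s W r1) (hs : s.Hyp) (h0 : 0 ≤ r1) (h1 : r1 < 1)
    (hW : ∀ n, W n * r1 ≤ 1) : JJ s W r1 where
  c1 := fun n a => (B.J n).coeff (Finsupp.single a 1)
  c2 := fun n a b => (MvPolynomial.pderiv a (B.J n)).coeff (Finsupp.single b 1)
  k1 := fun n a => B.kJ n _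
  k2 := fun n a b => pderiv_PK (B.kJ n) a _
  symm := fun n a b => hess_symm _ a b
  F4 := by
    intro n
    have h2 : vd (Sum.elim s.a (Sum.elim s.x s.cf)) 1 = s.fv.iL ⊔ s.fv.iB := by
      rw [vd_sum, vd_sum]
      have h3 := hs.vc
      have h4 := s.iB_le
      have h5 : s.fv.iL = vd s.a 1 ⊔ vd s.x 1 := rfl
      rw [h5] at h3 ⊢
      order
    refine F4_of hs (kf := Sum.elim s.a (Sum.elim s.x s.cf)) h2.ge ?_ (B.bx n r1 h0 le_rfl) h0 h1 (hW n) ?_
    · rw [h2]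
      exact hs.ht
    · rw [h2]
      exact B.kG r1 h0 le_rfl
  m := B.m
  G := B.G
  kG := B.kG
  Gq := fun r hr hr1 D p p' hc a => (B.bs r hr hr1).sub_mem hc a
  F3 := by
    intro n r hr hr1 D p p' hc a
    have hw : W n * r ≤ 1 := by
      rcases le_total (W n) 0 with h3 | h3
      · exact (mul_nonpos_of_nonpos_of_nonneg h3 hr).trans zero_le_one
      · exact (mul_le_mul_of_nonneg_left hr1 h3).trans (hW n)
    exact Id_mono (mm_mul_le hr) ((B.bx n r hr hr1).jet2 (B.bs r hr hr1) hr (hr1.trans_lt h1) hw p p' hc a)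

end

end Pool.Agent.Helper79.JET
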